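import Pool.Agent.T6.H84.Royle.Core

set_option autoImplicit false

namespace Pool.Agent.Results.MP_363d14_co.BinaryNoFano

universe u

open Set Matroid Pool.Agent.T6.H84.Royle

/-- `N` is isomorphic to the Fano matroid `F₇`, the matroid of the seven nonzero vectors of
`GF(2) ^ 3` with linear independence. -/
def IsFano {α : Type u} (N : Matroid α) : Prop :=
  ∃ f : α → (Fin 3 → ZMod 2), Set.BijOn f N.E {x | x ≠ 0} ∧
    ∀ I : Set α, I ⊆ N.E → (N.Indep I ↔ LinearIndepOn (ZMod 2) f I)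

lemma finite_case {α : Type u} (M : Matroid α) (hfin : M.Finite) (h4 : 4 ≤ M.E.encard)
    (h3 : TC M)
    (hbin : ∃ (n : ℕ) (v : α → Fin n → ZMod 2),
      ∀ I : Set α, I ⊆ M.E → (M.Indep I ↔ LinearIndepOn (ZMod 2) v I))
    (hF : ∀ N : Matroid α, N ≤m M → ¬ IsFano N) (c d : ℕ)
    (hc : ∀ C : Set α, M.IsCircuit C → C.encard ≤ (c : ℕ∞))
    (hd : ∀ D : Set α, M.IsCocircuit D → D.encard ≤ (d : ℕ∞)) :
    (2 : ℕ∞) * M.E.encard < ((c * d : ℕ) : ℕ∞) := by
  have hE : M.E.Finite := M.ground_finite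
  rw [← hE.cast_ncard_eq] at h4 ⊢
  have hN : H211.MC.NoSeven M := noSeven_of_noF7 hbin hF
  have key := core M (by exact_mod_cast h4) h3 hbin hN c d
    (fun C hC => by
      have h := hc C hC
      rw [← (hE.subset hC.subset_ground).cast_ncard_eq] at h
      exact_mod_cast h)
    (fun D hD => by
      have h := hd D hD
      rw [← (hE.subset hD.subset_ground).cast_ncard_eq] at h
      exact_mod_cast h)
  exact_mod_cast key

/-- A 3-connected binary matroid with at least four elements and without `F₇`-minors, or without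
`F₇*`-minors, has fewer than half of `c * d` elements, where `c` and `d` bound the sizes of its
circuits and of its cocircuits. -/
theorem result {α : Type u} (M : Matroid α) (hfin : M.Finite) (h4 : 4 ≤ M.E.encard)
    (h3 : ∀ X : Set α, X ⊆ M.E → ∀ k : ℕ, 1 ≤ k → k < 3 →
        (k : ℕ∞) ≤ X.encard → (k : ℕ∞) ≤ (M.E \ X).encard →
        M.eRank + (k : ℕ∞) ≤ M.eRk X + M.eRk (M.E \ X))
    (hbin : ∃ (n : ℕ) (v : α → Fin n → ZMod 2),
      ∀ I : Set α, I ⊆ M.E → (M.Indep I ↔ LinearIndepOn (ZMod 2) v I))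
    (hF : (∀ N : Matroid α, N ≤m M → ¬ IsFano N) ∨ (∀ N : Matroid α, N ≤m M → ¬ IsFano N✶))
    (c d : ℕ)
    (hc : ∀ C : Set α, M.IsCircuit C → C.encard ≤ (c : ℕ∞))
    (hd : ∀ D : Set α, M.IsCocircuit D → D.encard ≤ (d : ℕ∞)) :
    (2 : ℕ∞) * M.E.encard < ((c * d : ℕ) : ℕ∞) := by
  rcases hF with hF | hF
  · exact finite_case M hfin h4 h3 hbin hF c d hc hd
  · have hfin' : M✶.Finite := inferInstance
    have h := finite_case M✶ hfin' h4 (tc_dual h3) (dual_rep hfin hbin) (by
      intro N hN hNF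
      have h1 : N✶ ≤m M := by
        obtain ⟨X, Y, rfl⟩ := hN
        rw [Matroid.dual_contract_delete, Matroid.dual_dual]
        have e1 : M ＼ X ／ Y ≤m M ＼ X := ⟨Y, ∅, by rw [Matroid.delete_empty]⟩
        have e2 : M ＼ X ≤m M := ⟨∅, X, by rw [Matroid.contract_empty]⟩
        exact e1.trans e2
      apply hF _ h1
      rwa [Matroid.dual_dual]) d c (fun C hC => hd C hC) (fun D hD => hc D (by
        rw [Matroid.isCocircuit_def, Matroid.dual_dual] at hD
        exact hD))
    rw [mul_comm d c] at h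
    exact h

end Pool.Agent.Results.MP_363d14_co.BinaryNoFano
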